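import Pool.Agent.Run7.h835.NoExt

/-!
The end extension problem for models of bounded induction and collection, relative to one unary
predicate, has a negative answer.
-/

open Run7.h835

universe u

theorem Pool.Agent.Results.MP_fdb394_lc.RelativisedNegative.result :
    ∃ (M : Type) (_ : CommSemiring M) (_ : LinearOrder M) (_ : IsStrictOrderedRing M)
      (_ : CanonicallyOrderedAdd M) (P : M → Prop),
      Countable M ∧ Discrete M ∧ BddInduction M P ∧ Collection M P ∧
      ∀ (K : Type u) [CommSemiring K] [LinearOrder K] [IsStrictOrderedRing K]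
        [CanonicallyOrderedAdd K] (Q : K → Prop) (j : M →+* K),
        Discrete K → IsEndExt P Q j → BddInduction K Q → Function.Surjective j := by
  obtain ⟨M, i1, i2, i3, i4, P, h1, h2, h3, h4, h5⟩ := main_theorem.{u}
  refine ⟨M, i1, i2, i3, i4, P, h1, h2, h3, h4, ?_⟩
  intro K _ _ _ _ Q j _ he hK
  exact h5 K Q j he.strictMono he.initial he.pred hK
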